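import Mathlib
import Pool.Agent.Q7.RL.Model

/-!
# The centre: all Artin twists are holomorphic if L(E/M, s) has order at most two

`M/K` is a Galois extension of number fields with group `M ≃ₐ[K] M`, an arbitrary finite group, and
`E` is an elliptic curve over `K` with an integral equation `W` (`IsModel E W`).

The L-functions are real ones. `LSeries V` is the Euler product `L(E/F, s)` of the problem, computed
from the models `V`, minimal at all primes of `F`, for `Re s > 3/2`.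
`Pool.Agent.Q92.RT.twistedL M W φ` is `L(E ⊗ φ, s)` for a class function `φ` of the Galois group:
`exp ∑ φ(Frob_v ^ n) (α_v ^ n + β_v ^ n) / (n q_v ^ (n s))` over `n ≥ 1` and the primes `v` of `K` which do not
divide `6` and the discriminant of `W` and are unramified in `M`; the finitely many Euler factors left
out have no zeros and poles for `Re s ≥ 1`. `Continues f g` says that `f` is meromorphic on `ℂ` and
equal to `g` for `Re s > 3/2`, and `cont g` is such an `f`; `HasOrder g s₀ n` and `LOrder E s₀ n` say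
that `g`, or `L(E, s)`, has a meromorphic continuation to `ℂ`, of order `n` at `s₀`.

The assumptions are instances of the conjecture, known if `E` is automorphic over `M` (Brauer;
solvable descent). `Pool.Agent.Q92.RT.Automorphic M W s₀`: `L(E ⊗ χ, s)` has a meromorphic
continuation for the irreducible characters `χ` of the Galois group, and `L(E/M^H ⊗ ψ, s)` has one
which is holomorphic at `s₀` for the linear characters `ψ` of the SOLVABLE subgroups `H`; for the
other subgroups nothing is known. `FunctionalEquations M W`: the functional equations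
`Λ(χ, s) = w(χ) Λ(χ̄, 2 - s)` near `s = 1`, with `w(χ) = 1` for symplectic `χ`.

`Pool.Agent.Q7.TZ.Sy χ` says that `χ` is symplectic: real valued with Frobenius-Schur indicator `-1`.
-/

set_option autoImplicit false

open NumberField IsDedekindDomain Pool.Agent.H541R3.ART Pool.Agent.W446.AS Pool.Agent.H302R2
  Pool.Agent.H302R3 Pool.Agent.Q7.TZ Pool.Agent.Q7.SZ Pool.Agent.Q7.RL Pool.Agent.Q92.RT
  Pool.Agent.W353.NF Pool.Agent.H341R2.EC

/-- Let `E` be an elliptic curve over the number field `K` and `M/K` a Galois extension.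
(1) Let `n χ` and `r F` be the orders at the centre `s = 1` of `L(E ⊗ χ, s)` and `L(E/F, s)`, and suppose
that `r M ≤ 2`. Then `n χ ≥ 0` for EVERY irreducible character `χ` of the Galois group of `M/K`,
`r F ≥ 0` for all fields `F` between `K` and `M`, and `L(E/F ⊗ ψ, s)` is holomorphic at `1` for all
linear characters `ψ` of the Galois group of `M/F`. If `r M = 2`, one of the following holds:
`n μ = 2` for a character `μ` with `μ ^ 2 = 1`, and all other `n χ` are `0`;
`n μ = n ν = 1` for two linear characters with `μ ^ 2 = ν ^ 2 = 1` or `μ ν = 1`, and all other `n χ`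
are `0`; or `n χ₀ = 1` for one character `χ₀` of dihedral type and all other `n χ` are `0`: there are a
quadratic character `D` and a linear character `l ≠ l⁻¹` of its kernel with `χ₀ = l + l⁻¹` on the
kernel and `χ₀ = 0` off it.
(2) Suppose that the zeros of `L(E/M, s)` with `Re s ≥ 1` are simple, except possibly a double zero at
the centre. Then the continuation of `L(E ⊗ χ, s)` has no pole with `Re s ≥ 1`, for every irreducible
character `χ` of the Galois group of `M/K`. -/
theorem Pool.Agent.Results.MP_bf61d2_nt.CentralPoint.result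
    (K M : Type) [Field K] [NumberField K] [Field M] [NumberField M] [Algebra K M] [IsGalois K M]
    (E : WeierstrassCurve K) (hE : E.IsElliptic) (W : WeierstrassCurve (𝓞 K)) (hW : IsModel E W)
    (Λ : FunctionalEquations M W) :
    (Automorphic M W 1 →
      ∃ (n : ((M ≃ₐ[K] M) → ℂ) → ℤ) (r : IntermediateField K M → ℤ), Orders E W 1 n r ∧
        (r ⊤ ≤ 2 →
          (∀ χ ∈ Irr (M ≃ₐ[K] M), 0 ≤ n χ) ∧
          (∀ F, 0 ≤ r F) ∧
          (∀ (H : Subgroup (M ≃ₐ[K] M)) (ψ : H →* ℂˣ), ∃ k : ℤ, 0 ≤ k ∧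
            HasOrder (twistedL M W (induced H ψ)) 1 k) ∧
          (r ⊤ = 2 →
            (∃ μ : (M ≃ₐ[K] M) →* ℂˣ, μ * μ = 1 ∧ n (fun g => ((μ g : ℂˣ) : ℂ)) = 2 ∧
              ∀ χ ∈ Irr (M ≃ₐ[K] M), χ ≠ (fun g => ((μ g : ℂˣ) : ℂ)) → n χ = 0) ∨
            (∃ μ ν : (M ≃ₐ[K] M) →* ℂˣ, μ ≠ ν ∧ ((μ * μ = 1 ∧ ν * ν = 1) ∨ μ * ν = 1) ∧
              n (fun g => ((μ g : ℂˣ) : ℂ)) = 1 ∧ n (fun g => ((ν g : ℂˣ) : ℂ)) = 1 ∧
              ∀ χ ∈ Irr (M ≃ₐ[K] M), χ ≠ (fun g => ((μ g : ℂˣ) : ℂ)) →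
                χ ≠ (fun g => ((ν g : ℂˣ) : ℂ)) → n χ = 0) ∨
            (∃ χ₀ ∈ Irr (M ≃ₐ[K] M), n χ₀ = 1 ∧
              (∀ χ ∈ Irr (M ≃ₐ[K] M), χ ≠ χ₀ → n χ = 0) ∧
              ∃ D : (M ≃ₐ[K] M) →* ℂˣ, D ≠ 1 ∧ D * D = 1 ∧ (∀ g, D g ≠ 1 → χ₀ g = 0) ∧
                ∃ l : D.ker →* ℂˣ, l ≠ l⁻¹ ∧
                  ∀ x : D.ker, χ₀ x = ((l x : ℂˣ) : ℂ) + (((l x)⁻¹ : ℂˣ) : ℂ))))) ∧
    ((∀ s₀ : ℂ, 1 ≤ s₀.re → Automorphic M W s₀ ∧
        ∃ k : ℤ, (k ≤ 1 ∨ (k = 2 ∧ s₀ = 1)) ∧ LOrder (E.map (algebraMap K M)) s₀ k) →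
      ∀ χ ∈ Irr (M ≃ₐ[K] M), ∀ s₀ : ℂ, 1 ≤ s₀.re →
        ∃ k : ℤ, 0 ≤ k ∧ HasOrder (twistedL M W χ) s₀ k) := by
  classical
  have central : ∀ (a : Automorphic M W 1) (n : ((M ≃ₐ[K] M) → ℂ) → ℤ)
      (r : IntermediateField K M → ℤ), Orders E W 1 n r → r ⊤ ≤ 2 →
      ∀ χ ∈ Irr (M ≃ₐ[K] M), 0 ≤ n χ := by
    intro a n r ho h2 χ hχ
    obtain ⟨k, hk⟩ := Int.eq_ofNat_of_zero_le (ho.nonneg hE hW (by simp) a)
    have hr := ho.bot hE hW (by simp) a
    rw [hk] at hr
    have h1 := (TwistData.ofCurve a).theta_one hr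
    rw [← ho.ord a hχ]
    by_cases hk2 : k = 2
    · subst hk2
      have hm : meromorphicOrderAt ((TwistData.ofCurve a).model.Lin ⊥ 1) 1 =
          ((2 : ℕ) : WithTop ℤ) := by
        rw [model_Lin]; exact hr
      have h1' := (TwistData.ofCurve a).model.theta_one hm
      obtain ⟨D, -, -, h3, -⟩ := central_nonneg (TwistData.ofCurve a).model.ord
        (TwistData.ofCurve a).model.isSol (by rw [h1']; simp) (Λ.model a).theta_real
        (fun χ hχ h => (Λ.model a).ord_even hχ h)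
      rw [← model_ord _ hχ]
      exact h3 χ hχ
    · exact small_nonneg (TwistData.ofCurve a).ord (TwistData.ofCurve a).isSol (by omega) h1 χ hχ
  refine ⟨fun a => ?_, fun h χ hχ s₀ hs => ?_⟩
  · obtain ⟨n, r, ho⟩ := exists_orders (M := M) hE hW (by simp) a
    refine ⟨n, r, ho, fun h2 => ⟨central a n r ho h2, ?_⟩⟩
    obtain ⟨k, hk⟩ := Int.eq_ofNat_of_zero_le (ho.nonneg hE hW (by simp) a)
    have hr := ho.bot hE hW (by simp) a
    rw [hk] at hr
    have hk2 : k ≤ 2 := by omega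
    have hlin : ∀ (H : Subgroup (M ≃ₐ[K] M)) (ψ : H →* ℂˣ), ∃ k : ℤ, 0 ≤ k ∧
        HasOrder (twistedL M W (induced H ψ)) 1 k := by
      intro H ψ
      have h0 := ((TwistData.ofCurve a).toArtin hk2 hr).hecke H ψ
      obtain ⟨m, hm⟩ := Lin_order_ne_top (TwistData.ofCurve a) H ψ
      refine ⟨m, ?_, (ind_iff a H ψ m).2 hm⟩
      change 0 ≤ meromorphicOrderAt ((TwistData.ofCurve a).Lin H ψ) 1 at h0
      rw [hm] at h0
      exact_mod_cast h0
    refine ⟨fun F => ?_, hlin, fun h22 => ?_⟩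
    · obtain ⟨k, hk, h3⟩ := hlin F.fixingSubgroup 1
      have h4 := (ind_iff a F.fixingSubgroup 1 k).1 h3
      rw [ho.lin hE hW (by simp) a F] at h4
      have h5 : r F = k := by exact_mod_cast h4
      omega
    · have hr2 := ho.bot hE hW (by simp) a
      rw [h22] at hr2
      have hm : meromorphicOrderAt ((TwistData.ofCurve a).model.Lin ⊥ 1) 1 =
          ((2 : ℕ) : WithTop ℤ) := by
        rw [model_Lin]; exact hr2
      have h1' := (TwistData.ofCurve a).model.theta_one hm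
      have key : ∀ χ ∈ Irr (M ≃ₐ[K] M), n χ = (TwistData.ofCurve a).model.ord χ := by
        intro χ hχ
        rw [model_ord _ hχ, ho.ord a hχ]
      rcases central_shape (TwistData.ofCurve a).model.ord (TwistData.ofCurve a).model.isSol
        (by rw [h1']; simp) (Λ.model a).theta_real
        (fun χ hχ h => (Λ.model a).ord_even hχ h) with
        ⟨μ, e1, e2, e3⟩ | ⟨μ, ν, e0, e1, e2, e3, e4⟩ | ⟨χ₀, hχ₀, e1, e2, e3⟩
      · left
        exact ⟨μ, e1, by rw [key _ (lin_irr μ), e2], fun χ hχ hne => by rw [key χ hχ, e3 χ hχ hne]⟩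
      · right; left
        exact ⟨μ, ν, e0, e1, by rw [key _ (lin_irr μ), e2], by rw [key _ (lin_irr ν), e3],
          fun χ hχ h3 h4 => by rw [key χ hχ, e4 χ hχ h3 h4]⟩
      · right; right
        exact ⟨χ₀, hχ₀, by rw [key χ₀ hχ₀, e1],
          fun χ hχ hne => by rw [key χ hχ, e2 χ hχ hne], e3⟩
  · obtain ⟨a, k, hk1, hk⟩ := h s₀ hs
    obtain ⟨n, r, ho⟩ := exists_orders (M := M) hE hW hs a
    have hM := ho.eq_of_lorder_top hE hW hs a hk
    refine ⟨n χ, ?_, ho.twist χ hχ⟩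
    by_cases hk2 : k ≤ 1
    · obtain ⟨j, hj⟩ := Int.eq_ofNat_of_zero_le (ho.nonneg hE hW hs a)
      have hr := ho.bot hE hW hs a
      rw [hj] at hr
      rw [← ho.ord a hχ]
      exact small_nonneg (TwistData.ofCurve a).ord (TwistData.ofCurve a).isSol (by omega)
        ((TwistData.ofCurve a).theta_one hr) χ hχ
    · obtain ⟨hk3, hs1⟩ := hk1.resolve_left hk2
      subst hs1
      exact central a n r ho (by omega) χ hχ
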