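import Pool.Agent.Q92.FE.Law

/-!
# The functional equation of Hasse and Weil for semistable elliptic curves: descent from extension fields

`E` is a semistable elliptic curve over a number field `K`, and `F` runs through finite extensions of
`K`; no condition on the ramification of `F/K`.  The minimal models `V` and the Euler product
`LSeries V s` with the correct factors at all primes are those of `Pool.Agent.TH322.BC.Defs`.  The conductor
of `E/F` is the product of the primes of bad reduction, and the root number is `(-1)^(m+u)`, `m` the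
number of the primes of `F` of split multiplicative reduction and `u` the number of archimedean places
of `F`.
-/

set_option autoImplicit false

namespace Pool.Agent.Results.MP_bf61d2_nt.FunctionalEquationDescent

open NumberField IsDedekindDomain Filter Topology
open Pool.Agent.TH322.BC.Edge (MinimalModels)

section defs
variable {F : Type} [Field F] [NumberField F]

/-- `V` is an equation of `E` with integral coefficients. -/
def IsEquation (E : WeierstrassCurve F) (V : WeierstrassCurve (𝓞 F)) : Prop :=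
  ∃ C : WeierstrassCurve.VariableChange F, C • E = V.map (algebraMap (𝓞 F) F)

/-- `E` has split multiplicative reduction at `w`: the reduction modulo `w` of an integral equation `V`
has a node `(x, y)` (a singular point, and `c₄ ≠ 0`), and the slope `t` of a tangent at the node is in
the residue field. -/
def SplitAt (E : WeierstrassCurve F) (w : HeightOneSpectrum (𝓞 F)) : Prop :=
  ∃ V : WeierstrassCurve (𝓞 F), IsEquation E V ∧ V.c₄ ∉ w.asIdeal ∧ ∃ x y t : 𝓞 F,
    y ^ 2 + V.a₁ * x * y + V.a₃ * y - (x ^ 3 + V.a₂ * x ^ 2 + V.a₄ * x + V.a₆) ∈ w.asIdeal ∧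
    2 * y + V.a₁ * x + V.a₃ ∈ w.asIdeal ∧
    V.a₁ * y - (3 * x ^ 2 + 2 * V.a₂ * x + V.a₄) ∈ w.asIdeal ∧
    t ^ 2 + V.a₁ * t - (V.a₂ + 3 * x) ∈ w.asIdeal

/-- `E` has good or multiplicative reduction at all primes. -/
def Semistable (E : WeierstrassCurve F) : Prop :=
  ∀ w : HeightOneSpectrum (𝓞 F), ∃ V : WeierstrassCurve (𝓞 F),
    IsEquation E V ∧ (V.Δ ∉ w.asIdeal ∨ V.c₄ ∉ w.asIdeal)

/-- `E` has bad reduction at `w`: no integral equation has a discriminant prime to `w`. -/
def BadAt (E : WeierstrassCurve F) (w : HeightOneSpectrum (𝓞 F)) : Prop :=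
  ∀ V : WeierstrassCurve (𝓞 F), IsEquation E V → V.Δ ∈ w.asIdeal

open Classical in
/-- `N = |Δ_F|^2 N(𝔣)`, where the conductor `𝔣` of the semistable curve `E` is the product of the primes
of bad reduction. -/
noncomputable def conductor (E : WeierstrassCurve F) : ℝ :=
  |(discr F : ℝ)| ^ 2 * ((∏ᶠ w : HeightOneSpectrum (𝓞 F),
    if BadAt E w then Ideal.absNorm w.asIdeal else 1 : ℕ) : ℝ)

/-- The root number `(-1)^(m+u)`. -/
noncomputable def rootNumber (E : WeierstrassCurve F) : ℂ :=
  (-1) ^ (Nat.card {w : HeightOneSpectrum (𝓞 F) // SplitAt E w} + Nat.card (InfinitePlace F))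

/-- The factor `N^{s/2} π^{-ds} (Γ(s/2) Γ((s+1)/2))^d`, `d = [F : ℚ]`. -/
noncomputable def factor (E : WeierstrassCurve F) (s : ℂ) : ℂ :=
  ((conductor E : ℝ) : ℂ) ^ (s / 2) * (Real.pi : ℂ) ^ (-(Module.finrank ℚ F : ℂ) * s) *
    (Complex.Gamma (s / 2) * Complex.Gamma ((s + 1) / 2)) ^ (Module.finrank ℚ F)

/-- `L(E/F, s)` has a meromorphic continuation to the plane. -/
def Continues (E : WeierstrassCurve F) : Prop :=
  ∀ V : HeightOneSpectrum (𝓞 F) → WeierstrassCurve (𝓞 F), MinimalModels E V →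
    ∃ f : ℂ → ℂ, MeromorphicOn f Set.univ ∧
      ∀ s : ℂ, 3 / 2 < s.re → f s = Pool.Agent.TH322.BC.Edge.LSeries V s

/-- `L(E/F, s)` has a holomorphic continuation to the plane. -/
def IsEntire (E : WeierstrassCurve F) : Prop :=
  ∀ V : HeightOneSpectrum (𝓞 F) → WeierstrassCurve (𝓞 F), MinimalModels E V →
    ∃ f : ℂ → ℂ, Differentiable ℂ f ∧
      ∀ s : ℂ, 3 / 2 < s.re → f s = Pool.Agent.TH322.BC.Edge.LSeries V s

/-- The function `Λ`, meromorphic in the plane, continues the completed L-function. -/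
def IsCompleted (E : WeierstrassCurve F) (V : HeightOneSpectrum (𝓞 F) → WeierstrassCurve (𝓞 F))
    (Λ : ℂ → ℂ) : Prop :=
  MeromorphicOn Λ Set.univ ∧
    ∀ s : ℂ, 3 / 2 < s.re → Λ s = factor E s * Pool.Agent.TH322.BC.Edge.LSeries V s

/-- The functional equation (FE) for `E/F`: the completed L-function has a meromorphic continuation `Λ` to
the plane, and `w(E/F) Λ(s) = Λ(2 - s)` (an identity of meromorphic functions). -/
def FE (E : WeierstrassCurve F) : Prop :=
  ∀ V : HeightOneSpectrum (𝓞 F) → WeierstrassCurve (𝓞 F), MinimalModels E V →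
    ∃ Λ : ℂ → ℂ, IsCompleted E V Λ ∧ ∀ z : ℂ, ∀ᶠ s in 𝓝[≠] z, rootNumber E * Λ s = Λ (2 - s)

/-- The conjecture of Hasse and Weil for `E/F`: `L(E/F, s)` extends to an entire function, and the completed
function is entire and satisfies the functional equation. -/
def HasseWeil (E : WeierstrassCurve F) : Prop :=
  ∀ V : HeightOneSpectrum (𝓞 F) → WeierstrassCurve (𝓞 F), MinimalModels E V →
    ∃ f Λ : ℂ → ℂ, Differentiable ℂ f ∧ Differentiable ℂ Λ ∧
      (∀ s : ℂ, 3 / 2 < s.re → f s = Pool.Agent.TH322.BC.Edge.LSeries V s) ∧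
      (∀ s : ℂ, 0 < s.re → Λ s = factor E s * f s) ∧ ∀ s : ℂ, rootNumber E * Λ s = Λ (2 - s)

end defs

/-- The number of the embeddings of `F` in the algebraic closure of `K` that are fixed by `σ`. -/
noncomputable def fix (K F : Type) [Field K] [Field F] [Algebra K F]
    (σ : Gal(AlgebraicClosure K/K)) : ℕ :=
  Nat.card {i : F →ₐ[K] AlgebraicClosure K // ∀ x, σ (i x) = i x}

/-- `F` is generated over `K` by finitely many `p`-th roots of positive integers all of whose prime
factors belong to `T`, and `p ^ k` divides the degree of `F/K`. -/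
def TestField (T : Set ℕ) (p k : ℕ) (K F : Type) [Field K] [Field F] [Algebra K F] : Prop :=
  (∃ S : Set F, S.Finite ∧
    (∀ x ∈ S, ∃ c : ℕ, c ≠ 0 ∧ (∀ l : ℕ, l.Prime → l ∣ c → l ∈ T) ∧ x ^ p = (c : F)) ∧
    IntermediateField.adjoin K S = ⊤) ∧
  p ^ k ∣ Module.finrank K F

/-- A set of positive integers closed under multiples, with greatest common divisor `1`. -/
def IsSparse (D : Set ℕ) : Prop :=
  (∀ d ∈ D, ∀ n : ℕ, 0 < n → d * n ∈ D) ∧ ∀ g : ℕ, (∀ d ∈ D, g ∣ d) → g = 1

/-- The group `G` is `p`-hyperelementary: it has a cyclic normal subgroup of order prime to `p` with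
quotient a `p`-group. -/
def IsHyper (p : ℕ) (G : Type) [Group G] : Prop :=
  ∃ C : Subgroup G, C.Normal ∧ IsCyclic C ∧ (Nat.card C).Coprime p ∧
    ∀ g : G, ∃ k : ℕ, g ^ p ^ k ∈ C

section laws
variable {K : Type} [Field K] [NumberField K]

/-- Part 1: relations between permutation characters hold for the L-series, the conductors and the root
numbers. -/
def RelationLaw (E : WeierstrassCurve K) : Prop :=
  ∀ (ι : Type) [Fintype ι] (F : ι → Type) [∀ j, Field (F j)] [∀ j, NumberField (F j)]
    [∀ j, Algebra K (F j)] (n : ι → ℤ) (m : ℤ),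
    (∀ σ : Gal(AlgebraicClosure K/K), ∑ j, n j * (fix K (F j) σ : ℤ) = m) →
    (∀ (V₀ : HeightOneSpectrum (𝓞 K) → WeierstrassCurve (𝓞 K))
      (V : ∀ j, HeightOneSpectrum (𝓞 (F j)) → WeierstrassCurve (𝓞 (F j))), MinimalModels E V₀ →
      (∀ j, MinimalModels (E.map (algebraMap K (F j))) (V j)) → ∀ s : ℂ, 3 / 2 < s.re →
      Pool.Agent.TH322.BC.Edge.LSeries V₀ s ^ m =
        ∏ j, Pool.Agent.TH322.BC.Edge.LSeries (V j) s ^ n j ∧
      (factor E s * Pool.Agent.TH322.BC.Edge.LSeries V₀ s) ^ m =
        ∏ j, (factor (E.map (algebraMap K (F j))) s *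
          Pool.Agent.TH322.BC.Edge.LSeries (V j) s) ^ n j) ∧
    conductor E ^ m = ∏ j, conductor (E.map (algebraMap K (F j))) ^ n j ∧
    rootNumber E ^ m = ∏ j, rootNumber (E.map (algebraMap K (F j))) ^ n j

/-- Part 2: the degrees. -/
def DegreeLaw (E : WeierstrassCurve K) : Prop :=
  (∀ M : ℕ, 0 < M → (∀ (F : Type) [Field F] [NumberField F] [Algebra K F], M ∣ Module.finrank K F →
      FE (E.map (algebraMap K F))) →
    ∀ (F : Type) [Field F] [NumberField F] [Algebra K F]
      (V : HeightOneSpectrum (𝓞 F) → WeierstrassCurve (𝓞 F)) (Λ : ℂ → ℂ),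
      MinimalModels (E.map (algebraMap K F)) V → IsCompleted (E.map (algebraMap K F)) V Λ →
      ∃ ζ : ℂ, ζ ^ 2 = 1 ∧ (Odd (M / M.gcd (Module.finrank K F)) → ζ = 1) ∧
        ∀ z : ℂ, ∀ᶠ s in 𝓝[≠] z, ζ * rootNumber (E.map (algebraMap K F)) * Λ s = Λ (2 - s)) ∧
  ∀ D : Set ℕ, IsSparse D →
    (∀ (F : Type) [Field F] [NumberField F] [Algebra K F], Module.finrank K F ∈ D →
      FE (E.map (algebraMap K F))) →
    ∀ (F : Type) [Field F] [NumberField F] [Algebra K F], FE (E.map (algebraMap K F))

/-- Part 3: counterexamples spread. -/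
def SpreadLaw (E : WeierstrassCurve K) : Prop :=
  ¬ FE E → ∃ p₀ : ℕ, ∀ (p k : ℕ) (T : Set ℕ), p.Prime → (p ≠ p₀ ∨ (p ≠ 2 ∧ Continues E)) →
    (∀ l ∈ T, l.Prime) → T.Infinite →
    ∃ (F : Type) (_ : Field F) (_ : NumberField F) (_ : Algebra K F), TestField T p k K F ∧
      ¬ FE (E.map (algebraMap K F))

/-- A family of finite extensions of `K`, closed under isomorphisms and composita. -/
def IsFamily (𝓕 : Set (IntermediateField K (AlgebraicClosure K))) : Prop :=
  (∀ F ∈ 𝓕, FiniteDimensional K F) ∧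
  (∀ F ∈ 𝓕, ∀ F' : IntermediateField K (AlgebraicClosure K), Nonempty (F ≃ₐ[K] F') → F' ∈ 𝓕) ∧
  ∀ F ∈ 𝓕, ∀ F' ∈ 𝓕, F ⊔ F' ∈ 𝓕

/-- Part 4: families of fields. -/
def FamilyLaw (E : WeierstrassCurve K) : Prop :=
  ∀ 𝓕 : Set (IntermediateField K (AlgebraicClosure K)), IsFamily 𝓕 →
    (∀ F ∈ 𝓕, ∀ [NumberField F], FE (E.map (algebraMap K F))) →
    ((∀ (σ : Gal(AlgebraicClosure K/K)) (p : ℕ), p.Prime → ∃ F ∈ 𝓕, ¬ p ∣ fix K F σ) → FE E) ∧
    ((∀ σ : Gal(AlgebraicClosure K/K), ∃ F ∈ 𝓕, Odd (fix K F σ)) → Continues E → FE E)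

/-- Part 5: the intermediate fields of a Galois extension. -/
def GaloisLaw (E : WeierstrassCurve K) : Prop :=
  ∀ (L : Type) [Field L] [NumberField L] [Algebra K L] [IsGalois K L],
    (∀ (F : Type) [Field F] [NumberField F] [Algebra K F] [Algebra F L] [IsScalarTower K F L]
      (p : ℕ), p.Prime → IsHyper p (L ≃ₐ[F] L) → Continues (E.map (algebraMap K F))) →
    (∀ (F : Type) [Field F] [NumberField F] [Algebra K F] [Algebra F L] [IsScalarTower K F L],
      IsHyper 2 (L ≃ₐ[F] L) → FE (E.map (algebraMap K F))) →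
    ∀ (F : Type) [Field F] [NumberField F] [Algebra K F] [Algebra F L] [IsScalarTower K F L],
      FE (E.map (algebraMap K F))

/-- Part 6: the entire case. -/
def EntireLaw (E : WeierstrassCurve K) : Prop := FE E → IsEntire E → HasseWeil E

end laws

theorem fix_eq {K F : Type} [Field K] [NumberField K] [Field F] [NumberField F] [Algebra K F]
    (σ : Gal(AlgebraicClosure K/K)) : fix K F σ = Pool.Agent.W353.NF.fixn K F σ := by
  unfold fix Pool.Agent.W353.NF.fixn
  refine Nat.card_congr (Equiv.subtypeEquivRight fun i => ?_)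
  rw [Pool.Agent.W353.NF.act_apply]
  constructor
  · intro h
    exact AlgHom.ext h
  · intro h x
    exact DFunLike.congr_fun h x

section eqs
variable {F : Type} [Field F] [NumberField F] (E : WeierstrassCurve F)

theorem conductor_eq : conductor E = Pool.Agent.Q92.FE.NN E := by
  unfold conductor Pool.Agent.Q92.FE.NN Pool.Agent.Q92.FE.cN
  rfl

theorem root_eq : rootNumber E = Pool.Agent.Q92.FE.rn E := rfl

theorem factor_eq (s : ℂ) : factor E s = Pool.Agent.Q92.FE.arch E s := by
  unfold factor Pool.Agent.Q92.FE.arch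
  rw [conductor_eq]

theorem comp_eq (V : HeightOneSpectrum (𝓞 F) → WeierstrassCurve (𝓞 F)) (s : ℂ) :
    factor E s * Pool.Agent.TH322.BC.Edge.LSeries V s = Pool.Agent.Q92.FE.comp E V s := by
  rw [factor_eq]
  rfl

theorem fe_iff : FE E ↔ Pool.Agent.Q92.FE.FEq E 1 := by
  unfold FE Pool.Agent.Q92.FE.FEq IsCompleted
  simp only [zpow_one, comp_eq, root_eq, and_assoc]

end eqs

theorem part2 {K : Type} [Field K] [NumberField K] {E : WeierstrassCurve K} (hE : E.IsElliptic)
    (hs : Pool.Agent.Q92.PA.Semistable E) : DegreeLaw E := by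
  refine ⟨?_, ?_⟩
  · intro M hM h F _ _ _ V L hV hL
    have hEF : (E.map (algebraMap K F)).IsElliptic := inferInstance
    have h1 := Pool.Agent.Q5.VL.gen_power_law' (Pool.Agent.Q92.FE.fe_law hE hs) (M := M)
      (fun F' _ _ _ hd => (fe_iff _).1 (h F' hd)) F
    have h2 : 0 < M / M.gcd (Module.finrank K F) :=
      Nat.div_pos (Nat.le_of_dvd hM (Nat.gcd_dvd_left _ _)) (Nat.gcd_pos_of_pos_left _ hM)
    exact Pool.Agent.Q92.FE.fe_root hEF h2 h1 hV hL.1 fun s hs => by
      rw [hL.2 s hs, comp_eq]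
  · intro D hD h F _ _ _
    rw [fe_iff]
    exact Pool.Agent.Q5.VL.gen_sparse_law (Pool.Agent.Q92.FE.fe_law hE hs) hD.1 hD.2
      (fun F' _ _ _ hd => (fe_iff _).1 (h F' hd)) F

theorem part3 {K : Type} [Field K] [NumberField K] {E : WeierstrassCurve K} (hE : E.IsElliptic)
    (hs : Pool.Agent.Q92.PA.Semistable E) : SpreadLaw E := by
  have key : ∀ (p k : ℕ) (T : Set ℕ), p.Prime → (∀ l ∈ T, l.Prime) → T.Infinite →
      (∀ (F : Type) (_ : Field F) (_ : NumberField F) (_ : Algebra K F), TestField T p k K F →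
        FE (E.map (algebraMap K F))) →
      Pool.Agent.Q92.FE.FEq E ((p ^ k : ℕ) : ℤ) := by
    intro p k T hp hT hinf h
    have hpf : Fact p.Prime := ⟨hp⟩
    have h1 := Pool.Agent.Q5.VL.gen_radical_law' (Pool.Agent.Q92.FE.fe_law hE hs) p hT hinf k
      (fun F _ _ _ hr hd => (fe_iff _).1 (h F _ _ _ ⟨hr, hd⟩))
    rw [Algebra.algebraMap_self, WeierstrassCurve.map_id] at h1
    exact h1
  have hodd : ∀ p k : ℕ, p.Prime → p ≠ 2 → ¬ (2 : ℤ) ∣ ((p ^ k : ℕ) : ℤ) := by
    intro p k hp h2 h3
    have h4 : 2 ∣ p ^ k := by exact_mod_cast h3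
    exact h2 ((Nat.prime_dvd_prime_iff_eq Nat.prime_two hp).1
      (Nat.prime_two.dvd_of_dvd_pow h4)).symm
  intro hnot
  by_cases hc : Continues E
  · refine ⟨2, fun p k T hp hp2 hT hinf => ?_⟩
    have hp2' : p ≠ 2 := hp2.elim id fun h => h.1
    by_contra hcon
    push Not at hcon
    apply hnot
    rw [fe_iff]
    exact Pool.Agent.Q92.FE.fe_one_of_odd hE (hodd p k hp hp2') (key p k T hp hT hinf hcon) hc
  · by_contra hcon
    push Not at hcon
    obtain ⟨p, k, T, hp, -, hT, hinf, h⟩ := hcon 0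
    obtain ⟨q, k', T', hq, hqp, hT', hinf', h'⟩ := hcon p
    have hqp' : q ≠ p := hqp.resolve_right fun h => hc h.2
    have h1 := key p k T hp hT hinf h
    have h2 := key q k' T' hq hT' hinf' h'
    apply hnot
    rw [fe_iff]
    have hid : E.map (algebraMap K K) = E := by
      rw [Algebra.algebraMap_self, WeierstrassCurve.map_id]
    have h3 := Pool.Agent.Q5.VL.one_of_gcd (Pool.Agent.Q92.FE.fe_law hE hs) K
      (D := {p ^ k, q ^ k'}) (by
        intro g hg
        have h4 := hg (p ^ k) (by simp)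
        have h5 := hg (q ^ k') (by simp)
        have h6 : Nat.Coprime (p ^ k) (q ^ k') :=
          Nat.Coprime.pow _ _ ((Nat.coprime_primes hp hq).2 hqp'.symm)
        exact Nat.eq_one_of_dvd_coprimes h6 h4 h5) (by
        rintro d (rfl | rfl)
        · rw [hid]
          exact h1
        · rw [hid]
          exact h2)
    rw [hid] at h3
    exact h3

theorem part4 {K : Type} [Field K] [NumberField K] {E : WeierstrassCurve K} (hE : E.IsElliptic)
    (hs : Pool.Agent.Q92.PA.Semistable E) : FamilyLaw E := by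
  rintro 𝓕 ⟨h1, h2, h3⟩ h5
  refine ⟨fun h4 => ?_, fun h4 hc => ?_⟩
  · rw [fe_iff]
    refine Pool.Agent.Q92.FE.fe_exact hE hs (𝓕 := 𝓕) ⟨h1, h2, h3, fun σ p hp => ?_⟩
      (fun F hF _ => (fe_iff _).1 (h5 F hF))
    obtain ⟨F, hF, hfix⟩ := h4 σ p hp
    have hfd := h1 F hF
    have hnf : NumberField F := NumberField.of_module_finite K F
    refine ⟨F, hF, ?_⟩
    rw [← fix_eq]
    exact hfix
  · rw [fe_iff]
    refine Pool.Agent.Q92.FE.fe_family hE hs (𝓕 := 𝓕) ⟨h1, h2, h3, fun σ => ?_⟩
      (fun F hF _ => (fe_iff _).1 (h5 F hF)) hc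
    obtain ⟨F, hF, hodd⟩ := h4 σ
    have hfd := h1 F hF
    have hnf : NumberField F := NumberField.of_module_finite K F
    refine ⟨F, hF, ?_⟩
    rw [← fix_eq]
    exact fun h => Nat.not_even_iff_odd.2 hodd (even_iff_two_dvd.2 h)

/-- **Descent for the functional equation of Hasse and Weil.**
A. Let `E` be a semistable elliptic curve over a number field `K`.
1. For every relation `∑ n_j · 1_{F_j} = m` between the permutation characters of finite extensions `F_j`
of `K`: `L(E/K, s)^m = ∏ L(E/F_j, s)^(n_j)` for `Re s > 3/2`, with ALL Euler factors, the same relation for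
the completed L-functions, and the same relation for the conductors `N` and for the root numbers.
2. Suppose (FE) for `E/F` for all `F/K` with `M ∣ [F:K]`.  Then for every finite `F/K` and every
meromorphic continuation `Λ` of the completed L-function of `E/F`: `±w(E/F) Λ(s) = Λ(2 - s)`, with the
sign `+` if `M / gcd(M, [F:K])` is odd.  If (FE) holds for all `F/K` with `[F:K]` in a set `D` closed under
multiples with greatest common divisor `1`, then it holds for all finite `F/K`.
3. If (FE) fails for `E/K`, then for all primes `p` with at most one exception, all `k` and all infinite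
sets `T` of primes it fails for `E/F` for some test field `F`; no odd prime is exceptional if `L(E/K, s)`
has a meromorphic continuation.
4. Let `𝓕` be a family of finite extensions of `K`, closed under isomorphisms and composita, such that
(FE) holds for `E/F` for all `F ∈ 𝓕`.  If for all `σ` and all primes `p` some `F ∈ 𝓕` has a number
of embeddings fixed by `σ` that is prime to `p`, then (FE) holds for `E/K`; if this holds for `p = 2` and
`L(E/K, s)` has a meromorphic continuation, then (FE) holds for `E/K`.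
5. Let `L/K` be a Galois extension.  If `L(E/F, s)` has a meromorphic continuation for the intermediate
fields `F` with `Gal(L/F)` hyperelementary, and (FE) holds for those with `Gal(L/F)` 2-hyperelementary,
then (FE) holds for all intermediate fields.
6. If (FE) holds for `E/K` and `L(E/K, s)` extends to an entire function, then the conjecture of Hasse and
Weil holds for `E/K`.
B. If (FE) holds for all semistable elliptic curves over all number fields of degree in `D`, it holds for
all semistable elliptic curves over all number fields. -/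
theorem result :
    (∀ (K : Type) [Field K] [NumberField K] (E : WeierstrassCurve K), E.IsElliptic → Semistable E →
      RelationLaw E ∧ DegreeLaw E ∧ SpreadLaw E ∧ FamilyLaw E ∧ GaloisLaw E ∧ EntireLaw E) ∧
    (∀ D : Set ℕ, IsSparse D →
      (∀ (F : Type) [Field F] [NumberField F], Module.finrank ℚ F ∈ D →
        ∀ E : WeierstrassCurve F, E.IsElliptic → Semistable E → FE E) →
      ∀ (F : Type) [Field F] [NumberField F] (E : WeierstrassCurve F), E.IsElliptic →
        Semistable E → FE E) := by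
  refine ⟨?_, ?_⟩
  swap
  · intro D hD h F _ _ E hE hs
    have hs' : Pool.Agent.Q92.PA.Semistable E := hs
    have h1 := (part2 hE hs').2 D hD (fun F' _ _ _ hd => h F' (by
      rw [← Module.finrank_mul_finrank ℚ F F', mul_comm]
      exact hD.1 _ hd _ Module.finrank_pos) _ inferInstance hs'.map) F
    rw [Algebra.algebraMap_self, WeierstrassCurve.map_id] at h1
    exact h1
  intro K _ _ E hE hs
  have hs' : Pool.Agent.Q92.PA.Semistable E := hs
  refine ⟨?_, part2 hE hs', part3 hE hs', part4 hE hs', ?_, ?_⟩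
  · intro ι _ F _ _ _ n m h
    let Y : ι → Pool.Agent.Q5.BR.Ext K := fun j => @Pool.Agent.Q5.BR.Ext.mk K _ _ (F j) _ _ _
    have hrel : ∀ σ : Pool.Agent.W401.Cheb.GK K,
        ∑ j, n j * (Pool.Agent.W353.NF.fixn K (Y j).F σ : ℤ) = m := by
      intro τ
      rw [← h τ]
      exact Finset.sum_congr rfl fun j _ => by rw [fix_eq]
    refine ⟨fun V₀ V hV₀ hV s hs1 => ⟨?_, ?_⟩, ?_, ?_⟩
    · exact Pool.Agent.Q92.FE.LS_exact_pow (X := Y) hrel hE hs' hV₀ hV hs1
    · simp only [comp_eq]
      exact Pool.Agent.Q92.FE.comp_pow (X := Y) hrel hE hs' hV₀ hV hs1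
    · simp only [conductor_eq]
      exact (Pool.Agent.Q92.FE.NN_rel (X := Y) hrel hE hs').symm
    · simp only [root_eq]
      exact (Pool.Agent.Q92.FE.rn_rel (X := Y) hrel hE hs').symm
  · intro L _ _ _ _ h1 h2 F _ _ _ _ _
    rw [fe_iff]
    refine Pool.Agent.Q92.FE.fe_galois hE hs' L ?_ ?_ F
    · rintro F' _ _ _ _ _ ⟨p, hp, hH⟩
      exact h1 F' p hp hH
    · intro F' _ _ _ _ _ hH
      exact (fe_iff _).1 (h2 F' hH)
  · intro h1 h2 V hV
    obtain ⟨f, hf, hf'⟩ := h2 V hV
    obtain ⟨L, hL1, hL2, hL3⟩ := Pool.Agent.Q92.FE.fe_entire hE ((fe_iff _).1 h1) hV hf hf'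
    refine ⟨f, L, hf, hL1, hf', fun s hs => ?_, hL3⟩
    rw [hL2 s hs, factor_eq]

end Pool.Agent.Results.MP_bf61d2_nt.FunctionalEquationDescent
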