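import Pool.Agent.Q5.RF.HW
import Pool.Agent.Q5.RF.Span

/-!
# The conjecture of Hasse and Weil: the number fields without automorphisms suffice

`E` is an elliptic curve over a number field.  The minimal models `V` and the Euler product
`LSeries V s` with the correct factors at all primes are those of `Pool.Agent.TH322.BC.Defs`.
-/

set_option autoImplicit false

namespace Pool.Agent.Results.MP_bf61d2_nt.RigidFields

open NumberField IsDedekindDomain
open Pool.Agent.TH322.BC.Edge (MinimalModels)

/-- The identity is the only automorphism of the field `F`. -/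
def NoAutomorphisms (F : Type) [Field F] : Prop :=
  ∀ (τ : F ≃+* F) (x : F), τ x = x

/-- The number of the `K`-embeddings of `F` into the algebraic closure of `K` which are fixed by `σ`:
the permutation character of `F/K`. -/
noncomputable def fixedEmbeddings (K F : Type) [Field K] [Field F] [Algebra K F]
    (σ : AlgebraicClosure K ≃ₐ[K] AlgebraicClosure K) : ℕ :=
  Nat.card {i : F →ₐ[K] AlgebraicClosure K // ∀ x, σ (i x) = i x}

/-- `((2 π)^(-s) Γ(s))^d`, the gamma factor of an elliptic curve over a field of degree `d`. -/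
noncomputable def gammaFactor (d : ℕ) (s : ℂ) : ℂ :=
  ((2 * Real.pi : ℂ) ^ (-s) * Complex.Gamma s) ^ d

/-- `L(E, s) ^ t` has a meromorphic continuation `f` to `ℂ`, and
`f(s) Γ_E(s)^t = R(s) f(2 - s) Γ_E(2 - s)^t` outside a countable set, where `R` is a finite product of
constants, exponential functions, Euler factors `P(q^(-s))`, `P(q^(s-2))` and of their inverses. -/
def PowerHasseWeil {F : Type} [Field F] [NumberField F] (E : WeierstrassCurve F) (t : ℕ) : Prop :=
  ∀ V : HeightOneSpectrum (𝓞 F) → WeierstrassCurve (𝓞 F), MinimalModels E V →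
    ∃ f R : ℂ → ℂ, MeromorphicOn f Set.univ ∧
      (∀ s : ℂ, 3 / 2 < s.re → f s = Pool.Agent.TH322.BC.Edge.LSeries V s ^ t) ∧
      Pool.Agent.Q5.RF.EulerType R ∧ ∃ T : Set ℂ, T.Countable ∧ ∀ s, s ∉ T →
        f s * gammaFactor (Module.finrank ℚ F) s ^ t =
          R s * (f (2 - s) * gammaFactor (Module.finrank ℚ F) (2 - s) ^ t)

/-- Continuation and functional equation of `L(E, s)`. -/
def HasseWeil {F : Type} [Field F] [NumberField F] (E : WeierstrassCurve F) : Prop :=
  PowerHasseWeil E 1

/-- A set of positive integers closed under multiples, with greatest common divisor `1`; for example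
the multiples of `10^100` together with the multiples of `3^100`, or all `n ≥ 10^100`. -/
def IsSparse (D : Set ℕ) : Prop :=
  (∀ d ∈ D, ∀ n : ℕ, 0 < n → d * n ∈ D) ∧ ∀ g : ℕ, (∀ d ∈ D, g ∣ d) → g = 1

theorem law_iff {K : Type} [Field K] [NumberField K] (E : WeierstrassCurve K) (F : Type) [Field F]
    [NumberField F] [Algebra K F] (t : ℕ) :
    PowerHasseWeil (E.map (algebraMap K F)) t ↔ Pool.Agent.Q5.RF.LawH E F (t : ℤ) := by
  unfold PowerHasseWeil Pool.Agent.Q5.RF.LawH Pool.Agent.Q5.RF.PowH
  simp only [zpow_natCast]
  exact Iff.rfl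

theorem fixed_eq (K F : Type) [Field K] [NumberField K] [Field F] [NumberField F] [Algebra K F]
    (σ : AlgebraicClosure K ≃ₐ[K] AlgebraicClosure K) :
    fixedEmbeddings K F σ = Pool.Agent.W353.NF.fixn K F σ := by
  unfold fixedEmbeddings Pool.Agent.W353.NF.fixn
  refine Nat.card_congr (Equiv.subtypeEquivRight fun i => ⟨fun h => AlgHom.ext fun x => h x,
    fun h x => DFunLike.congr_fun h x⟩)

/-- **The fields without automorphisms suffice.**
1. The permutation character of every finite `F/K` is an integral combination of the permutation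
characters of finite extensions `X/K` without automorphisms with `[X:K] ∈ D`.
2. If `E/F` satisfies the conjecture for all `F/K` without automorphisms with `[F:K] ∈ D`, then for
all finite `F/K`.
3. If the conjecture holds over all number fields without automorphisms of degree in `D`, then it
holds over all number fields.
4. If `E/F` satisfies the conjecture for all `F/K` without automorphisms with `M ∣ [F:K]`, then the
power `L(E/F, s)^(M / gcd(M, [F:K]))` satisfies it for all finite `F/K`. -/
theorem result :
    (∀ D : Set ℕ, IsSparse D →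
      ∀ (K F : Type) [Field K] [NumberField K] [Field F] [NumberField F] [Algebra K F],
      ∃ (m : ℕ) (X : Fin m → Pool.Agent.Q5.BR.Ext K) (n : Fin m → ℤ),
        (∀ j, NoAutomorphisms (X j).F ∧ Module.finrank K (X j).F ∈ D) ∧
        ∀ σ : AlgebraicClosure K ≃ₐ[K] AlgebraicClosure K,
          (fixedEmbeddings K F σ : ℤ) = ∑ j, n j * (fixedEmbeddings K (X j).F σ : ℤ)) ∧
    (∀ D : Set ℕ, IsSparse D →
      ∀ (K : Type) [Field K] [NumberField K] (E : WeierstrassCurve K), E.IsElliptic →
      (∀ (F : Type) [Field F] [NumberField F] [Algebra K F], NoAutomorphisms F →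
        Module.finrank K F ∈ D → HasseWeil (E.map (algebraMap K F))) →
      ∀ (F : Type) [Field F] [NumberField F] [Algebra K F], HasseWeil (E.map (algebraMap K F))) ∧
    (∀ D : Set ℕ, IsSparse D →
      (∀ (F : Type) [Field F] [NumberField F], NoAutomorphisms F → Module.finrank ℚ F ∈ D →
        ∀ E : WeierstrassCurve F, E.IsElliptic → HasseWeil E) →
      ∀ (F : Type) [Field F] [NumberField F] (E : WeierstrassCurve F), E.IsElliptic →
        HasseWeil E) ∧
    (∀ M : ℕ, ∀ (K : Type) [Field K] [NumberField K] (E : WeierstrassCurve K), E.IsElliptic →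
      (∀ (F : Type) [Field F] [NumberField F] [Algebra K F], NoAutomorphisms F →
        M ∣ Module.finrank K F → HasseWeil (E.map (algebraMap K F))) →
      ∀ (F : Type) [Field F] [NumberField F] [Algebra K F],
        PowerHasseWeil (E.map (algebraMap K F)) (M / M.gcd (Module.finrank K F))) := by
  have part1 : ∀ D : Set ℕ, IsSparse D →
      ∀ (K : Type) [Field K] [NumberField K] (E : WeierstrassCurve K), E.IsElliptic →
      (∀ (F : Type) [Field F] [NumberField F] [Algebra K F], NoAutomorphisms F →
        Module.finrank K F ∈ D → HasseWeil (E.map (algebraMap K F))) →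
      ∀ (F : Type) [Field F] [NumberField F] [Algebra K F],
        HasseWeil (E.map (algebraMap K F)) := by
    intro D hD K _ _ E hE h F _ _ _
    unfold HasseWeil
    rw [law_iff]
    have h1 := Pool.Agent.Q5.RF.gen_rigid_law (Pool.Agent.Q5.RF.lawH_isLaw hE) hD.1 hD.2
      (fun F' _ _ _ hr hd => by
        have h2 := h F' hr hd
        unfold HasseWeil at h2
        rw [law_iff] at h2
        exact_mod_cast h2) F
    exact_mod_cast h1
  refine ⟨?_, part1, ?_, ?_⟩
  · intro D hD K F _ _ _ _ _
    obtain ⟨ι, _, X, n, hX, h⟩ := Pool.Agent.Q5.RF.gen_rigid_law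
      (Pool.Agent.Q5.RF.span_isLaw (K := K)
        (fun X => NoAutomorphisms X.F ∧ Module.finrank K X.F ∈ D)) hD.1 hD.2
      (fun F' _ _ _ hr hd => ⟨Unit, inferInstance, fun _ => Pool.Agent.Q5.BR.Ext.mk F', fun _ => 1,
        fun _ => ⟨hr, hd⟩, fun σ => by simp⟩) F
    let e := Fintype.equivFin ι
    refine ⟨Fintype.card ι, fun j => X (e.symm j), fun j => n (e.symm j), fun j => hX _,
      fun σ => ?_⟩
    have h1 := h σ
    rw [one_mul] at h1
    rw [fixed_eq, ← h1, ← Equiv.sum_comp e.symm]
    exact Finset.sum_congr rfl fun j _ => by rw [fixed_eq]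
  · intro D hD h F _ _ E hE
    have h1 := part1 D hD F E hE (fun F' _ _ _ hr hd => h F' hr (by
      rw [← Module.finrank_mul_finrank ℚ F F', mul_comm]
      exact hD.1 _ hd _ Module.finrank_pos) _ inferInstance) F
    rw [Algebra.algebraMap_self, WeierstrassCurve.map_id] at h1
    exact h1
  · intro M K _ _ E hE h F _ _ _
    rw [law_iff]
    exact Pool.Agent.Q5.RF.gen_rigid_power_law (Pool.Agent.Q5.RF.lawH_isLaw hE)
      (fun F' _ _ _ hr hd => by
        have h2 := h F' hr hd
        unfold HasseWeil at h2
        rw [law_iff] at h2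
        exact_mod_cast h2) F

end Pool.Agent.Results.MP_bf61d2_nt.RigidFields
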